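import Mathlib

/-!
The pair (Heisenberg group, its centre) is coset automatic but not strongly coset automatic.
-/

namespace Pool.Agent.Results.MP_6b1724_al.CosetAutomaticNotStrongly

/-! ### Definitions -/

section Defs

variable {G : Type} [Group G]

/-- The alphabet `A = X ∪ X⁻¹`. -/
abbrev Alph (X : Set G) : Type := {g : G // g ∈ X ∨ g⁻¹ ∈ X}

/-- The element of `G` represented by a word. -/
def val {X : Set G} (w : List (Alph X)) : G := (w.map Subtype.val).prod

/-- `d_Γ(g, h) ≤ n` in the Cayley graph of `G` with respect to `X`. -/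
def DistLE (X : Set G) (g h : G) (n : ℕ) : Prop :=
  ∃ u : List (Alph X), u.length ≤ n ∧ g * val u = h

/-- The padded pair of words, as a word over pairs of letters, `none` being the padding symbol. -/
def pad {A : Type} : List A → List A → List (Option A × Option A)
  | [], [] => []
  | a :: v, [] => (some a, none) :: pad v []
  | [], b :: w => (none, some b) :: pad [] w
  | a :: v, b :: w => (some a, some b) :: pad v w

/-- The language contains a representative of every right coset `H g`. -/
def Covers {X : Set G} (H : Subgroup G) (L : Language (Alph X)) : Prop :=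
  ∀ g : G, ∃ w ∈ L, g * (val w)⁻¹ ∈ H

/-- The pair `(G, H)` is coset automatic with respect to `X`: there is an automatic coset system,
that is a finite automaton with language `L` and, for every `a ∈ A ∪ {ε}` (`ε` is `none`), a finite
two-variable automaton accepting `(v, w)` if and only if `v, w ∈ L` and `H v a = H w`. -/
def CosetAutomatic (X : Set G) (H : Subgroup G) : Prop :=
  ∃ L : Language (Alph X), L.IsRegular ∧ Covers H L ∧
    ∀ a : Option (Alph X), ∃ (σ : Type) (_ : Finite σ)
      (M : DFA (Option (Alph X) × Option (Alph X)) σ),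
      ∀ v w : List (Alph X), pad v w ∈ M.accepts ↔
        v ∈ L ∧ w ∈ L ∧ val v * (a.elim 1 Subtype.val) * (val w)⁻¹ ∈ H

/-- The pair `(G, H)` is strongly coset automatic with respect to `X`. -/
def StronglyCosetAutomatic (X : Set G) (H : Subgroup G) : Prop :=
  ∃ (L : Language (Alph X)) (K : ℕ), L.IsRegular ∧ Covers H L ∧
    ∀ v ∈ L, ∀ w ∈ L, ∀ h ∈ H, DistLE X (val v) (h * val w) 1 →
      ∀ i : ℕ, DistLE X (val (v.take i)) (h * val (w.take i)) K

end Defs

/-! ### A two-variable automaton from the fellow traveller property -/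

section Fellow

variable {A : Type} (δ : A → ℤ × ℤ)

/-- total displacement -/
def disp (w : List A) : ℤ × ℤ := (w.map δ).sum

theorem disp_nil : disp δ [] = 0 := rfl

theorem disp_cons (a : A) (w : List A) : disp δ (a :: w) = δ a + disp δ w := by
  simp [disp]

theorem disp_append (v w : List A) : disp δ (v ++ w) = disp δ v + disp δ w := by
  simp [disp]

theorem disp_replicate (n : ℕ) (a : A) : disp δ (List.replicate n a) = n • δ a := by
  simp [disp]

/-- the letter or nothing -/
def odisp (a : Option A) : ℤ × ℤ := a.elim 0 δ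

/-- one step of a component -/
def ostep {σ : Type} (W : DFA A σ) (q : σ) (a : Option A) : σ := a.elim q (W.step q)

open Classical in
/-- the step of the pair automaton -/
noncomputable def pstep {σ : Type} (W : DFA A σ) (B : Set (ℤ × ℤ)) (s : σ × σ × Option B)
    (c : Option A × Option A) : σ × σ × Option B :=
  (ostep W s.1 c.1, ostep W s.2.1 c.2, s.2.2.bind fun d =>
    if h : (d : ℤ × ℤ) + odisp δ c.2 - odisp δ c.1 ∈ B then some ⟨_, h⟩ else none)

/-- the pair automaton -/
noncomputable def pairDFA {σ : Type} (W : DFA A σ) (B : Set (ℤ × ℤ)) (h0 : (0 : ℤ × ℤ) ∈ B)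
    (a : ℤ × ℤ) : DFA (Option A × Option A) (σ × σ × Option B) where
  step := pstep δ W B
  start := (W.start, W.start, some ⟨0, h0⟩)
  accept := {s | s.1 ∈ W.accept ∧ s.2.1 ∈ W.accept ∧ ∃ d : B, s.2.2 = some d ∧ (d : ℤ × ℤ) = a}

variable {δ} {σ : Type} {W : DFA A σ} {B : Set (ℤ × ℤ)}

theorem fold_none (l : List (Option A × Option A)) (q₁ q₂ : σ) :
    (l.foldl (pstep δ W B) (q₁, q₂, none)).2.2 = none := by
  induction l generalizing q₁ q₂ with
  | nil => rfl
  | cons c l ih => exact ih _ _

theorem fold_fst (v w : List A) (q₁ q₂ : σ) (o : Option B) :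
    ((pad v w).foldl (pstep δ W B) (q₁, q₂, o)).1 = W.evalFrom q₁ v := by
  induction v generalizing w q₁ q₂ o with
  | nil =>
    induction w generalizing q₁ q₂ o with
    | nil => rw [pad]; rfl
    | cons b w ih => rw [pad, List.foldl_cons]; exact ih _ _ _
  | cons a v ih =>
    cases w with
    | nil => rw [pad, List.foldl_cons]; exact ih _ _ _ _
    | cons b w => rw [pad, List.foldl_cons]; exact ih _ _ _ _

theorem fold_snd (v w : List A) (q₁ q₂ : σ) (o : Option B) :
    ((pad v w).foldl (pstep δ W B) (q₁, q₂, o)).2.1 = W.evalFrom q₂ w := by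
  induction v generalizing w q₁ q₂ o with
  | nil =>
    induction w generalizing q₁ q₂ o with
    | nil => rw [pad]; rfl
    | cons b w ih => rw [pad, List.foldl_cons]; exact ih _ _ _
  | cons a v ih =>
    cases w with
    | nil => rw [pad, List.foldl_cons]; exact ih _ _ _ _
    | cons b w => rw [pad, List.foldl_cons]; exact ih _ _ _ _

theorem pstep_some (q₁ q₂ : σ) (d : B) (c : Option A × Option A)
    (h : (d : ℤ × ℤ) + odisp δ c.2 - odisp δ c.1 ∈ B) :
    pstep δ W B (q₁, q₂, some d) c =
      (ostep W q₁ c.1, ostep W q₂ c.2, some ⟨(d : ℤ × ℤ) + odisp δ c.2 - odisp δ c.1, h⟩) := by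
  unfold pstep
  simp only [Option.bind_some, dif_pos h]

theorem pstep_fail (q₁ q₂ : σ) (d : B) (c : Option A × Option A)
    (h : (d : ℤ × ℤ) + odisp δ c.2 - odisp δ c.1 ∉ B) :
    pstep δ W B (q₁, q₂, some d) c = (ostep W q₁ c.1, ostep W q₂ c.2, none) := by
  unfold pstep
  simp only [Option.bind_some, dif_neg h]

/-- if the automaton survives, the third component is the difference -/
theorem fold_sound (v w : List A) (q₁ q₂ : σ) (d e : B)
    (h : ((pad v w).foldl (pstep δ W B) (q₁, q₂, some d)).2.2 = some e) :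
    (e : ℤ × ℤ) = d + disp δ w - disp δ v := by
  induction v generalizing w q₁ q₂ d with
  | nil =>
    induction w generalizing q₁ q₂ d with
    | nil =>
      rw [pad] at h
      have h1 : some d = some e := h
      rw [Option.some.injEq] at h1
      rw [← h1, disp_nil, add_zero, sub_zero]
    | cons b w ih =>
      rw [pad, List.foldl_cons] at h
      by_cases hB : (d : ℤ × ℤ) + odisp δ (some b) - odisp δ none ∈ B
      · rw [pstep_some _ _ _ _ hB] at h
        rw [ih _ _ _ h, disp_cons]
        show (d : ℤ × ℤ) + δ b - 0 + disp δ w - disp δ [] = d + (δ b + disp δ w) - disp δ []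
        abel
      · rw [pstep_fail _ _ _ _ hB, fold_none] at h
        cases h
  | cons a v ih =>
    cases w with
    | nil =>
      rw [pad, List.foldl_cons] at h
      by_cases hB : (d : ℤ × ℤ) + odisp δ none - odisp δ (some a) ∈ B
      · rw [pstep_some _ _ _ _ hB] at h
        rw [ih _ _ _ _ h, disp_cons]
        show (d : ℤ × ℤ) + 0 - δ a + disp δ [] - disp δ v = d + disp δ [] - (δ a + disp δ v)
        abel
      · rw [pstep_fail _ _ _ _ hB, fold_none] at h
        cases h
    | cons b w =>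
      rw [pad, List.foldl_cons] at h
      by_cases hB : (d : ℤ × ℤ) + odisp δ (some b) - odisp δ (some a) ∈ B
      · rw [pstep_some _ _ _ _ hB] at h
        rw [ih _ _ _ _ h, disp_cons, disp_cons]
        show (d : ℤ × ℤ) + δ b - δ a + disp δ w - disp δ v =
          d + (δ b + disp δ w) - (δ a + disp δ v)
        abel
      · rw [pstep_fail _ _ _ _ hB, fold_none] at h
        cases h

/-- if all differences stay in `B`, the automaton survives -/
theorem fold_complete (v w : List A) (q₁ q₂ : σ) (d : B)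
    (h : ∀ i : ℕ, (d : ℤ × ℤ) + disp δ (w.take i) - disp δ (v.take i) ∈ B) :
    ∃ e : B, ((pad v w).foldl (pstep δ W B) (q₁, q₂, some d)).2.2 = some e := by
  induction v generalizing w q₁ q₂ d with
  | nil =>
    induction w generalizing q₁ q₂ d with
    | nil => exact ⟨d, by rw [pad]; rfl⟩
    | cons b w ih =>
      rw [pad, List.foldl_cons]
      have hB : (d : ℤ × ℤ) + odisp δ (some b) - odisp δ none ∈ B := by
        have := h 1
        simpa [disp, odisp] using this
      rw [pstep_some _ _ _ _ hB]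
      apply ih
      intro i
      have h1 := h (i + 1)
      rw [List.take_succ_cons, disp_cons] at h1
      show (d : ℤ × ℤ) + δ b - 0 + disp δ (w.take i) - disp δ (List.take i []) ∈ B
      rw [List.take_nil] at h1 ⊢
      convert h1 using 1
      abel
  | cons a v ih =>
    cases w with
    | nil =>
      rw [pad, List.foldl_cons]
      have hB : (d : ℤ × ℤ) + odisp δ none - odisp δ (some a) ∈ B := by
        have := h 1
        simpa [disp, odisp] using this
      rw [pstep_some _ _ _ _ hB]
      apply ih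
      intro i
      have h1 := h (i + 1)
      rw [List.take_succ_cons, disp_cons] at h1
      show (d : ℤ × ℤ) + 0 - δ a + disp δ (List.take i []) - disp δ (v.take i) ∈ B
      rw [List.take_nil] at h1 ⊢
      convert h1 using 1
      abel
    | cons b w =>
      rw [pad, List.foldl_cons]
      have hB : (d : ℤ × ℤ) + odisp δ (some b) - odisp δ (some a) ∈ B := by
        have := h 1
        simpa [disp, odisp] using this
      rw [pstep_some _ _ _ _ hB]
      apply ih
      intro i
      have h1 := h (i + 1)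
      rw [List.take_succ_cons, List.take_succ_cons, disp_cons, disp_cons] at h1
      show (d : ℤ × ℤ) + δ b - δ a + disp δ (w.take i) - disp δ (v.take i) ∈ B
      convert h1 using 1
      abel

theorem pairDFA_accepts (h0 : (0 : ℤ × ℤ) ∈ B) (a : ℤ × ℤ)
    (hft : ∀ v ∈ W.accepts, ∀ w ∈ W.accepts, disp δ w - disp δ v = a →
      ∀ i : ℕ, disp δ (w.take i) - disp δ (v.take i) ∈ B) (v w : List A) :
    pad v w ∈ (pairDFA δ W B h0 a).accepts ↔
      v ∈ W.accepts ∧ w ∈ W.accepts ∧ disp δ w - disp δ v = a := by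
  have key : pad v w ∈ (pairDFA δ W B h0 a).accepts ↔
      ((pad v w).foldl (pstep δ W B) (W.start, W.start, some ⟨0, h0⟩)).1 ∈ W.accept ∧
      ((pad v w).foldl (pstep δ W B) (W.start, W.start, some ⟨0, h0⟩)).2.1 ∈ W.accept ∧
      ∃ d : B, ((pad v w).foldl (pstep δ W B) (W.start, W.start, some ⟨0, h0⟩)).2.2 = some d ∧
        (d : ℤ × ℤ) = a := Iff.rfl
  rw [key, fold_fst, fold_snd]
  constructor
  · rintro ⟨h1, h2, d, h3, h4⟩
    refine ⟨h1, h2, ?_⟩
    have h5 := fold_sound v w _ _ _ _ h3
    rw [h4] at h5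
    rw [h5]
    show disp δ w - disp δ v = 0 + disp δ w - disp δ v
    abel
  · rintro ⟨h1, h2, h3⟩
    refine ⟨h1, h2, ?_⟩
    obtain ⟨e, he⟩ := fold_complete (δ := δ) (W := W) v w W.start W.start ⟨0, h0⟩ (by
      intro i
      have := hft v h1 w h2 h3 i
      show (0 : ℤ × ℤ) + disp δ (w.take i) - disp δ (v.take i) ∈ B
      rwa [zero_add])
    refine ⟨e, he, ?_⟩
    have h5 := fold_sound v w _ _ _ _ he
    rw [h5]
    show (0 : ℤ × ℤ) + disp δ w - disp δ v = a
    rwa [zero_add]

end Fellow

/-! ### The language -/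

section Lang

variable {A : Type} (δ : A → ℤ × ℤ)

/-- horizontal letters -/
def Hor (a : A) : Prop := δ a = (1, 0) ∨ δ a = (-1, 0)

/-- vertical letters -/
def Ver (a : A) : Prop := δ a = (0, 1) ∨ δ a = (0, -1)

open Classical in
/-- The automaton for the words `b ^ n c ^ m`, `b` horizontal and `c` vertical; the state is the
last letter. -/
noncomputable def lastDFA : DFA A (Option (Option A)) where
  step s a := s.bind fun o => match o with
    | none => some (some a)
    | some b => if a = b ∨ (Hor δ b ∧ Ver δ a) then some (some a) else none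
  start := some none
  accept := {s | s ≠ none}

variable {δ}

/-- the shape of the accepted words -/
def Shape (w : List A) : Prop :=
  ∃ (n m : ℕ) (b c : A), (n = 0 ∨ Hor δ b) ∧ (m = 0 ∨ Ver δ c) ∧
    w = List.replicate n b ++ List.replicate m c

theorem eval_snoc (w : List A) (a : A) :
    (lastDFA δ).eval (w ++ [a]) = (lastDFA δ).step ((lastDFA δ).eval w) a :=
  DFA.eval_append_singleton _ _ _

theorem inv_last (hHV : ∀ a, Hor δ a ∨ Ver δ a) (w : List A) :
    match (lastDFA δ).eval w with
    | none => True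
    | some none => w = []
    | some (some a) => (Hor δ a ∧ ∃ n, w = List.replicate n a) ∨
        (Ver δ a ∧ ∃ (n m : ℕ) (b : A), (n = 0 ∨ Hor δ b) ∧
          w = List.replicate n b ++ List.replicate m a) := by
  classical
  induction w using List.reverseRecOn with
  | nil => exact rfl
  | append_singleton w a ih =>
    rw [eval_snoc]
    rcases hs : (lastDFA δ).eval w with _ | _ | b
    · exact trivial
    · rw [hs] at ih
      have hw : w = [] := ih
      subst hw
      show (Hor δ a ∧ ∃ n, [] ++ [a] = List.replicate n a) ∨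
        (Ver δ a ∧ ∃ (n m : ℕ) (b : A), (n = 0 ∨ Hor δ b) ∧
          [] ++ [a] = List.replicate n b ++ List.replicate m a)
      rcases hHV a with h | h
      · exact Or.inl ⟨h, 1, rfl⟩
      · exact Or.inr ⟨h, 0, 1, a, Or.inl rfl, rfl⟩
    · rw [hs] at ih
      have ih' : (Hor δ b ∧ ∃ n, w = List.replicate n b) ∨
        (Ver δ b ∧ ∃ (n m : ℕ) (b' : A), (n = 0 ∨ Hor δ b') ∧
          w = List.replicate n b' ++ List.replicate m b) := ih
      by_cases hab : a = b ∨ (Hor δ b ∧ Ver δ a)
      · have hstep : (lastDFA δ).step (some (some b)) a = some (some a) := by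
          show (if a = b ∨ (Hor δ b ∧ Ver δ a) then some (some a) else none) = some (some a)
          rw [if_pos hab]
        rw [hstep]
        show (Hor δ a ∧ ∃ n, w ++ [a] = List.replicate n a) ∨
          (Ver δ a ∧ ∃ (n m : ℕ) (b : A), (n = 0 ∨ Hor δ b) ∧
            w ++ [a] = List.replicate n b ++ List.replicate m a)
        rcases hab with rfl | ⟨hb, ha⟩
        · rcases ih' with ⟨h, n, rfl⟩ | ⟨h, n, m, b', hb', rfl⟩
          · exact Or.inl ⟨h, n + 1, List.replicate_succ'.symm⟩
          · refine Or.inr ⟨h, n, m + 1, b', hb', ?_⟩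
            rw [List.append_assoc, ← List.replicate_succ']
        · refine Or.inr ⟨ha, ?_⟩
          rcases ih' with ⟨h, n, rfl⟩ | ⟨h, _⟩
          · exact ⟨n, 1, b, Or.inr hb, rfl⟩
          · exfalso
            rcases hb with hb | hb <;> rcases h with h | h <;>
              (rw [hb] at h; simp at h)
      · have hstep : (lastDFA δ).step (some (some b)) a = none := by
          show (if a = b ∨ (Hor δ b ∧ Ver δ a) then some (some a) else none) = none
          rw [if_neg hab]
        rw [hstep]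
        exact trivial

theorem shape_of_mem (hHV : ∀ a, Hor δ a ∨ Ver δ a) [Nonempty A] {w : List A}
    (hw : w ∈ (lastDFA δ).accepts) : Shape (δ := δ) w := by
  have h := inv_last hHV w
  have hw' : (lastDFA δ).eval w ≠ none := hw
  rcases hs : (lastDFA δ).eval w with _ | _ | a
  · exact (hw' hs).elim
  · rw [hs] at h
    have hw : w = [] := h
    obtain ⟨a⟩ := (inferInstance : Nonempty A)
    exact ⟨0, 0, a, a, Or.inl rfl, Or.inl rfl, hw⟩
  · rw [hs] at h
    have h' : (Hor δ a ∧ ∃ n, w = List.replicate n a) ∨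
        (Ver δ a ∧ ∃ (n m : ℕ) (b : A), (n = 0 ∨ Hor δ b) ∧
          w = List.replicate n b ++ List.replicate m a) := h
    rcases h' with ⟨h1, n, rfl⟩ | ⟨h1, n, m, b, hb, rfl⟩
    · exact ⟨n, 0, a, a, Or.inr h1, Or.inl rfl, by simp⟩
    · exact ⟨n, m, b, a, hb, Or.inr h1, rfl⟩

theorem evalFrom_replicate (b : A) (n : ℕ) :
    (lastDFA δ).evalFrom (some (some b)) (List.replicate n b) = some (some b) := by
  classical
  induction n with
  | zero => rfl
  | succ n ih =>
    rw [List.replicate_succ, DFA.evalFrom_cons]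
    have hstep : (lastDFA δ).step (some (some b)) b = some (some b) := by
      show (if b = b ∨ (Hor δ b ∧ Ver δ b) then some (some b) else none) = some (some b)
      rw [if_pos (Or.inl rfl)]
    rw [hstep, ih]

theorem mem_accepts (b c : A) (hb : Hor δ b) (hc : Ver δ c) (n m : ℕ) :
    List.replicate n b ++ List.replicate m c ∈ (lastDFA δ).accepts := by
  classical
  show (lastDFA δ).evalFrom (some none) (List.replicate n b ++ List.replicate m c) ≠ none
  rw [DFA.evalFrom_of_append]
  cases n with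
  | zero =>
    cases m with
    | zero => exact fun h => by cases h
    | succ m =>
      rw [List.replicate_zero, DFA.evalFrom_nil, List.replicate_succ, DFA.evalFrom_cons]
      have hstep : (lastDFA δ).step (some none) c = some (some c) := rfl
      rw [hstep, evalFrom_replicate]
      exact fun h => by cases h
  | succ n =>
    rw [List.replicate_succ, DFA.evalFrom_cons]
    have hstep : (lastDFA δ).step (some none) b = some (some b) := rfl
    rw [hstep, evalFrom_replicate]
    cases m with
    | zero => exact fun h => by cases h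
    | succ m =>
      rw [List.replicate_succ, DFA.evalFrom_cons]
      have hstep : (lastDFA δ).step (some (some b)) c = some (some c) := by
        show (if c = b ∨ (Hor δ b ∧ Ver δ c) then some (some c) else none) = some (some c)
        rw [if_pos (Or.inr ⟨hb, hc⟩)]
      rw [hstep, evalFrom_replicate]
      exact fun h => by cases h

/-- the box of differences -/
def Box : Set (ℤ × ℤ) := {d | -1 ≤ d.1 ∧ d.1 ≤ 1 ∧ -1 ≤ d.2 ∧ d.2 ≤ 1}

theorem box_finite : Box.Finite := by
  refine (Set.Finite.prod (Set.finite_Icc (-1 : ℤ) 1) (Set.finite_Icc (-1 : ℤ) 1)).subset ?_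
  rintro ⟨x, y⟩ ⟨h1, h2, h3, h4⟩
  exact ⟨⟨h1, h2⟩, ⟨h3, h4⟩⟩

theorem disp_shape {n m : ℕ} {b c : A} (i : ℕ) :
    disp δ ((List.replicate n b ++ List.replicate m c).take i) =
      (min i n) • δ b + (min (i - n) m) • δ c := by
  rw [List.take_append, disp_append, List.length_replicate, List.take_replicate,
    List.take_replicate, disp_replicate, disp_replicate]

/-- the coordinates of a multiple of a letter -/
theorem hor_smul {n : ℕ} {b : A} (hb : n = 0 ∨ Hor δ b) :
    ∃ ε : ℤ, (ε = 1 ∨ ε = -1) ∧ ∀ k ≤ n, k • δ b = (ε * k, 0) := by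
  rcases hb with rfl | hb | hb
  · refine ⟨1, Or.inl rfl, fun k hk => ?_⟩
    obtain rfl : k = 0 := by omega
    ext <;> simp
  · exact ⟨1, Or.inl rfl, fun k _ => by rw [hb]; ext <;> simp⟩
  · exact ⟨-1, Or.inr rfl, fun k _ => by rw [hb]; ext <;> simp⟩

theorem ver_smul {n : ℕ} {b : A} (hb : n = 0 ∨ Ver δ b) :
    ∃ ε : ℤ, (ε = 1 ∨ ε = -1) ∧ ∀ k ≤ n, k • δ b = (0, ε * k) := by
  rcases hb with rfl | hb | hb
  · refine ⟨1, Or.inl rfl, fun k hk => ?_⟩
    obtain rfl : k = 0 := by omega
    ext <;> simp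
  · exact ⟨1, Or.inl rfl, fun k _ => by rw [hb]; ext <;> simp⟩
  · exact ⟨-1, Or.inr rfl, fun k _ => by rw [hb]; ext <;> simp⟩

theorem fellow (hHV : ∀ a, Hor δ a ∨ Ver δ a) [Nonempty A] (a : ℤ × ℤ)
    (ha : a = (0, 0) ∨ a = (1, 0) ∨ a = (-1, 0) ∨ a = (0, 1) ∨ a = (0, -1)) :
    ∀ v ∈ (lastDFA δ).accepts, ∀ w ∈ (lastDFA δ).accepts, disp δ w - disp δ v = a →
      ∀ i : ℕ, disp δ (w.take i) - disp δ (v.take i) ∈ Box := by
  intro v hv w hw hvw i
  obtain ⟨n, m, b, c, hb, hc, rfl⟩ := shape_of_mem hHV hv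
  obtain ⟨n', m', b', c', hb', hc', rfl⟩ := shape_of_mem hHV hw
  obtain ⟨ε, hε, h1⟩ := hor_smul hb
  obtain ⟨η, hη, h2⟩ := ver_smul hc
  obtain ⟨ε', hε', h1'⟩ := hor_smul hb'
  obtain ⟨η', hη', h2'⟩ := ver_smul hc'
  rw [disp_append, disp_append, disp_replicate, disp_replicate, disp_replicate, disp_replicate,
    h1 n le_rfl, h2 m le_rfl, h1' n' le_rfl, h2' m' le_rfl] at hvw
  rw [disp_shape, disp_shape, h1 _ (min_le_right _ _), h2 _ (min_le_right _ _),
    h1' _ (min_le_right _ _), h2' _ (min_le_right _ _)]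
  have hx := congrArg Prod.fst hvw
  have hy := congrArg Prod.snd hvw
  simp only [Prod.fst_sub, Prod.fst_add, Prod.snd_sub, Prod.snd_add, add_zero, zero_add]
    at hx hy
  simp only [Box, Set.mem_ofPred_eq, Prod.fst_sub, Prod.fst_add, Prod.snd_sub, Prod.snd_add,
    add_zero, zero_add, Nat.cast_min]
  rcases hε with rfl | rfl <;> rcases hη with rfl | rfl <;> rcases hε' with rfl | rfl <;>
    rcases hη' with rfl | rfl <;> rcases ha with rfl | rfl | rfl | rfl | rfl <;>
    (simp only at hx hy; omega)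

end Lang

/-! ### The Heisenberg group -/

/-- The integral Heisenberg group: triples with
`(a, b, c) (a', b', c') = (a + a', b + b', c + c' + a b')`. -/
@[ext] structure Heis : Type where
  /-- first coordinate -/
  a : ℤ
  /-- second coordinate -/
  b : ℤ
  /-- central coordinate -/
  c : ℤ

namespace Heis

instance : Mul Heis := ⟨fun x y => ⟨x.a + y.a, x.b + y.b, x.c + y.c + x.a * y.b⟩⟩
instance : One Heis := ⟨⟨0, 0, 0⟩⟩
instance : Inv Heis := ⟨fun x => ⟨-x.a, -x.b, -x.c + x.a * x.b⟩⟩

@[simp] theorem mul_a (x y : Heis) : (x * y).a = x.a + y.a := rfl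
@[simp] theorem mul_b (x y : Heis) : (x * y).b = x.b + y.b := rfl
@[simp] theorem mul_c (x y : Heis) : (x * y).c = x.c + y.c + x.a * y.b := rfl
@[simp] theorem one_a : (1 : Heis).a = 0 := rfl
@[simp] theorem one_b : (1 : Heis).b = 0 := rfl
@[simp] theorem one_c : (1 : Heis).c = 0 := rfl
@[simp] theorem inv_a (x : Heis) : (x⁻¹).a = -x.a := rfl
@[simp] theorem inv_b (x : Heis) : (x⁻¹).b = -x.b := rfl
@[simp] theorem inv_c (x : Heis) : (x⁻¹).c = -x.c + x.a * x.b := rfl

instance : Group Heis := Group.ofLeftAxioms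
  (by intro x y z; ext <;> simp <;> ring)
  (by intro x; ext <;> simp)
  (by intro x; ext <;> simp)

/-- the generators -/
def gx : Heis := ⟨1, 0, 0⟩
/-- the generators -/
def gy : Heis := ⟨0, 1, 0⟩

theorem gx_pow (n : ℕ) : gx ^ n = ⟨n, 0, 0⟩ := by
  induction n with
  | zero => rfl
  | succ n ih => rw [pow_succ, ih]; ext <;> simp [gx]

theorem gy_pow (n : ℕ) : gy ^ n = ⟨0, n, 0⟩ := by
  induction n with
  | zero => rfl
  | succ n ih => rw [pow_succ, ih]; ext <;> simp [gy]

theorem square (n : ℕ) : gx ^ n * gy ^ n * (gx ^ n)⁻¹ * (gy ^ n)⁻¹ = ⟨0, 0, n * n⟩ := by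
  rw [gx_pow, gy_pow]
  ext <;> simp

theorem mem_center_iff (g : Heis) : g ∈ Subgroup.center Heis ↔ g.a = 0 ∧ g.b = 0 := by
  rw [Subgroup.mem_center_iff]
  constructor
  · intro h
    have h1 := congrArg Heis.c (h gx)
    have h2 := congrArg Heis.c (h gy)
    simp [gx, gy] at h1 h2
    exact ⟨h2, h1⟩
  · rintro ⟨h1, h2⟩ x
    ext
    · simp [h1]
    · simp [h2]
    · simp [h1, h2, add_comm]

end Heis

open Heis

/-- the generating set -/
def XX : Set Heis := {gx, gy}

theorem closure_XX : Subgroup.closure XX = ⊤ := by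
  rw [eq_top_iff]
  intro g _
  have hx : gx ∈ Subgroup.closure XX := Subgroup.subset_closure (Or.inl rfl)
  have hy : gy ∈ Subgroup.closure XX := Subgroup.subset_closure (Or.inr rfl)
  have hz : (⟨0, 0, 1⟩ : Heis) ∈ Subgroup.closure XX := by
    have h := Subgroup.mul_mem _ (Subgroup.mul_mem _ (Subgroup.mul_mem _ hx hy)
      (Subgroup.inv_mem _ hx)) (Subgroup.inv_mem _ hy)
    have h1 := square 1
    rw [pow_one, pow_one] at h1
    rw [h1] at h
    simpa using h
  have px : ∀ n : ℤ, gx ^ n = ⟨n, 0, 0⟩ := by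
    intro n
    cases n with
    | ofNat n => rw [Int.ofNat_eq_natCast, zpow_natCast, gx_pow]
    | negSucc n =>
      rw [zpow_negSucc, gx_pow]
      ext <;> simp [Int.negSucc_eq]
  have py : ∀ n : ℤ, gy ^ n = ⟨0, n, 0⟩ := by
    intro n
    cases n with
    | ofNat n => rw [Int.ofNat_eq_natCast, zpow_natCast, gy_pow]
    | negSucc n =>
      rw [zpow_negSucc, gy_pow]
      ext <;> simp [Int.negSucc_eq]
  have pzn : ∀ n : ℕ, (⟨0, 0, 1⟩ : Heis) ^ n = ⟨0, 0, n⟩ := by
    intro n
    induction n with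
    | zero => rfl
    | succ n ih => rw [pow_succ, ih]; ext <;> simp
  have pz : ∀ n : ℤ, (⟨0, 0, 1⟩ : Heis) ^ n = ⟨0, 0, n⟩ := by
    intro n
    cases n with
    | ofNat n => rw [Int.ofNat_eq_natCast, zpow_natCast, pzn]
    | negSucc n =>
      rw [zpow_negSucc, pzn]
      ext <;> simp [Int.negSucc_eq]
  have h := Subgroup.mul_mem _ (Subgroup.mul_mem _ (Subgroup.zpow_mem _ hy g.b)
    (Subgroup.zpow_mem _ hx g.a)) (Subgroup.zpow_mem _ hz g.c)
  rw [px, py, pz] at h
  have h2 : (⟨0, g.b, 0⟩ * ⟨g.a, 0, 0⟩ * ⟨0, 0, g.c⟩ : Heis) = g := by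
    ext <;> simp
  rwa [h2] at h

/-- displacement of a letter -/
def dl {X : Set Heis} (a : Alph X) : ℤ × ℤ := (a.1.a, a.1.b)

theorem val_nil {X : Set Heis} : val ([] : List (Alph X)) = 1 := rfl

theorem val_cons {X : Set Heis} (a : Alph X) (w : List (Alph X)) :
    val (a :: w) = a.1 * val w := by
  simp [val]

theorem val_append {X : Set Heis} (v w : List (Alph X)) : val (v ++ w) = val v * val w := by
  simp [val]

theorem disp_eq {X : Set Heis} (w : List (Alph X)) : disp dl w = ((val w).a, (val w).b) := by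
  induction w with
  | nil => rfl
  | cons a w ih =>
    rw [disp_cons, ih, val_cons]
    rfl

theorem mem_iff {X : Set Heis} (v w : List (Alph X)) (g : Heis) :
    val v * g * (val w)⁻¹ ∈ Subgroup.center Heis ↔ disp dl w - disp dl v = (g.a, g.b) := by
  rw [mem_center_iff, disp_eq, disp_eq, Prod.ext_iff]
  simp only [mul_a, mul_b, inv_a, inv_b, Prod.fst_sub, Prod.snd_sub]
  constructor
  · rintro ⟨h1, h2⟩; constructor <;> linarith
  · rintro ⟨h1, h2⟩; constructor <;> linarith

/-- letters -/
def lx : Alph XX := ⟨gx, Or.inl (Or.inl rfl)⟩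
/-- letters -/
def lx' : Alph XX := ⟨gx⁻¹, Or.inr (by rw [inv_inv]; exact Or.inl rfl)⟩
/-- letters -/
def ly : Alph XX := ⟨gy, Or.inl (Or.inr rfl)⟩
/-- letters -/
def ly' : Alph XX := ⟨gy⁻¹, Or.inr (by rw [inv_inv]; exact Or.inr rfl)⟩

theorem letters (a : Alph XX) : a.1 = gx ∨ a.1 = gy ∨ a.1 = gx⁻¹ ∨ a.1 = gy⁻¹ := by
  rcases a.2 with (h | h) | (h | h)
  · exact Or.inl h
  · exact Or.inr (Or.inl h)
  · exact Or.inr (Or.inr (Or.inl (by rw [← h, inv_inv])))
  · exact Or.inr (Or.inr (Or.inr (by
      have h' : (a.1)⁻¹ = gy := h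
      rw [← h', inv_inv])))

theorem finite_alph (X : Set Heis) (hX : X.Finite) : Finite (Alph X) := by
  have h : {g : Heis | g ∈ X ∨ g⁻¹ ∈ X}.Finite := by
    refine (hX.union (hX.image fun g => g⁻¹)).subset ?_
    rintro g (h | h)
    · exact Or.inl h
    · exact Or.inr ⟨g⁻¹, h, inv_inv g⟩
  exact h.to_subtype

theorem hHV (a : Alph XX) : Hor dl a ∨ Ver dl a := by
  rcases letters a with h | h | h | h
  · exact Or.inl (Or.inl (by unfold dl; rw [h]; rfl))
  · exact Or.inr (Or.inl (by unfold dl; rw [h]; rfl))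
  · exact Or.inl (Or.inr (by unfold dl; rw [h]; rfl))
  · exact Or.inr (Or.inr (by unfold dl; rw [h]; rfl))

theorem coset_automatic : CosetAutomatic XX (Subgroup.center Heis) := by
  have hfin : Finite (Alph XX) := finite_alph XX ((Set.finite_singleton gy).insert gx)
  have hne : Nonempty (Alph XX) := ⟨lx⟩
  refine ⟨(lastDFA dl).accepts, ?_, ?_, ?_⟩
  · have := Fintype.ofFinite (Alph XX)
    exact ⟨Option (Option (Alph XX)), inferInstance, lastDFA dl, rfl⟩
  · intro g
    have hx : ∃ b : Alph XX, Hor dl b ∧ ∃ n : ℕ, n • dl b = (g.a, 0) := by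
      rcases le_total 0 g.a with h | h
      · exact ⟨lx, Or.inl rfl, g.a.toNat, by
          ext <;> simp [dl, lx, gx, h]⟩
      · exact ⟨lx', Or.inr rfl, (-g.a).toNat, by
          ext <;> simp [dl, lx', gx, h]⟩
    have hy : ∃ b : Alph XX, Ver dl b ∧ ∃ n : ℕ, n • dl b = (0, g.b) := by
      rcases le_total 0 g.b with h | h
      · exact ⟨ly, Or.inl rfl, g.b.toNat, by
          ext <;> simp [dl, ly, gy, h]⟩
      · exact ⟨ly', Or.inr rfl, (-g.b).toNat, by
          ext <;> simp [dl, ly', gy, h]⟩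
    obtain ⟨b, hb, n, hn⟩ := hx
    obtain ⟨c, hc, m, hm⟩ := hy
    refine ⟨_, mem_accepts b c hb hc n m, ?_⟩
    have h := (mem_iff (X := XX) [] (List.replicate n b ++ List.replicate m c) g).2 (by
      rw [disp_append, disp_replicate, disp_replicate, hn, hm, disp_nil]
      ext <;> simp)
    rwa [val_nil, one_mul] at h
  · intro a
    have ha : ∃ g : Heis, a.elim 1 Subtype.val = g ∧
        ((g.a, g.b) = (0, 0) ∨ (g.a, g.b) = (1, 0) ∨ (g.a, g.b) = (-1, 0) ∨
          (g.a, g.b) = (0, 1) ∨ (g.a, g.b) = (0, -1)) := by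
      rcases a with _ | a
      · exact ⟨1, rfl, Or.inl rfl⟩
      · refine ⟨a.1, rfl, ?_⟩
        rcases letters a with h | h | h | h
        · exact Or.inr (Or.inl (by rw [h]; rfl))
        · exact Or.inr (Or.inr (Or.inr (Or.inl (by rw [h]; rfl))))
        · exact Or.inr (Or.inr (Or.inl (by rw [h]; rfl)))
        · exact Or.inr (Or.inr (Or.inr (Or.inr (by rw [h]; rfl))))
    obtain ⟨g, hg, hcase⟩ := ha
    have hB : Finite Box := box_finite.to_subtype
    have h0 : (0 : ℤ × ℤ) ∈ Box := by
      refine ⟨?_, ?_, ?_, ?_⟩ <;> simp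
    refine ⟨_, inferInstance, pairDFA dl (lastDFA dl) Box h0 (g.a, g.b), ?_⟩
    intro v w
    rw [pairDFA_accepts h0 (g.a, g.b) (fellow hHV _ hcase), hg, mem_iff]

/-! ### Not strongly coset automatic -/

/-- the ball -/
def Ball (X : Set Heis) (n : ℕ) : Set Heis := {g | ∃ u : List (Alph X), u.length ≤ n ∧ val u = g}

theorem ball_mul {X : Set Heis} {m n : ℕ} {g h : Heis} (hg : g ∈ Ball X m) (hh : h ∈ Ball X n) :
    g * h ∈ Ball X (m + n) := by
  obtain ⟨u, hu, rfl⟩ := hg
  obtain ⟨u', hu', rfl⟩ := hh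
  exact ⟨u ++ u', by rw [List.length_append]; omega, val_append _ _⟩

theorem ball_pow {X : Set Heis} {m : ℕ} {g : Heis} (hg : g ∈ Ball X m) (n : ℕ) :
    g ^ n ∈ Ball X (n * m) := by
  induction n with
  | zero => exact ⟨[], by simp, rfl⟩
  | succ n ih =>
    rw [pow_succ, Nat.succ_mul]
    exact ball_mul ih hg

theorem ball_finite {X : Set Heis} (hX : X.Finite) (n : ℕ) : (Ball X n).Finite := by
  have hfin := finite_alph X hX
  have h1 : {u : List (Alph X) | u.length ≤ n}.Finite := List.finite_length_le _ _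
  refine (h1.image val).subset ?_
  rintro g ⟨u, hu, rfl⟩
  exact ⟨u, hu, rfl⟩

theorem exists_ball {X : Set Heis} (hX : Subgroup.closure X = ⊤) (g : Heis) :
    ∃ n, g ∈ Ball X n := by
  have hg : g ∈ Subgroup.closure X := by rw [hX]; exact Subgroup.mem_top g
  induction hg using Subgroup.closure_induction'' with
  | one => exact ⟨0, [], le_rfl, rfl⟩
  | mem x hx => exact ⟨1, [⟨x, Or.inl hx⟩], le_rfl, by simp [val]⟩
  | inv_mem x hx => exact ⟨1, [⟨x⁻¹, Or.inr (by rw [inv_inv]; exact hx)⟩], le_rfl, by simp [val]⟩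
  | mul x y _ _ hx hy =>
    obtain ⟨m, hm⟩ := hx
    obtain ⟨n, hn⟩ := hy
    exact ⟨m + n, ball_mul hm hn⟩

theorem not_strongly (X : Set Heis) (hXf : X.Finite) (hX : Subgroup.closure X = ⊤) :
    ¬ StronglyCosetAutomatic X (Subgroup.center Heis) := by
  rintro ⟨L, K, _, hcov, hL⟩
  -- representatives
  have hrep : ∀ p : ℤ × ℤ, ∃ w ∈ L, ((val w).a, (val w).b) = p := by
    intro p
    obtain ⟨w, hw, h⟩ := hcov ⟨p.1, p.2, 0⟩
    refine ⟨w, hw, ?_⟩
    rw [mem_center_iff] at h
    simp only [mul_a, mul_b, inv_a, inv_b] at h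
    ext
    · simp only; linarith [h.1]
    · simp only; linarith [h.2]
  choose w hwL hw using hrep
  -- the bound
  obtain ⟨E, hE⟩ : ∃ E : ℕ, ∀ g ∈ Ball X K, |g.c| ≤ E := by
    obtain ⟨E, hE⟩ := ((ball_finite hXf K).image fun g => |g.c|).bddAbove
    refine ⟨E.toNat, fun g hg => ?_⟩
    have := hE ⟨g, hg, rfl⟩
    exact this.trans (Int.self_le_toNat E)
  -- one step
  have step : ∀ (p : ℤ × ℤ) (a : Alph X), ∃ h ∈ Subgroup.center Heis, |h.c| ≤ E ∧
      val (w p) * a.1 = h * val (w (p + dl a)) := by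
    intro p a
    refine ⟨val (w p) * a.1 * (val (w (p + dl a)))⁻¹, ?_, ?_, ?_⟩
    · rw [mem_iff, disp_eq, disp_eq, hw, hw]
      show p + dl a - p = dl a
      abel
    · have hcen : val (w p) * a.1 * (val (w (p + dl a)))⁻¹ ∈ Subgroup.center Heis := by
        rw [mem_iff, disp_eq, disp_eq, hw, hw]
        show p + dl a - p = dl a
        abel
      have h1 := hL (w p) (hwL p) (w (p + dl a)) (hwL _) _ hcen ⟨[a], le_rfl, by
        rw [inv_mul_cancel_right]
        simp [val]⟩ 0
      obtain ⟨u, hu, h2⟩ := h1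
      rw [List.take_zero, List.take_zero, val_nil, one_mul, mul_one] at h2
      exact hE _ ⟨u, hu, h2⟩
    · rw [inv_mul_cancel_right]
  -- words
  have words : ∀ (u : List (Alph X)) (p : ℤ × ℤ), ∃ h ∈ Subgroup.center Heis,
      |h.c| ≤ E * u.length ∧ val (w p) * val u = h * val (w (p + disp dl u)) := by
    intro u
    induction u with
    | nil =>
      intro p
      refine ⟨1, Subgroup.one_mem _, by simp, ?_⟩
      rw [disp_nil, add_zero, val_nil, mul_one, one_mul]
    | cons a u ih =>
      intro p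
      obtain ⟨h1, hc1, hb1, he1⟩ := step p a
      obtain ⟨h2, hc2, hb2, he2⟩ := ih (p + dl a)
      refine ⟨h1 * h2, Subgroup.mul_mem _ hc1 hc2, ?_, ?_⟩
      · have h3 : (h1 * h2).c = h1.c + h2.c := by
          rw [mul_c, ((mem_center_iff h1).1 hc1).1, zero_mul, add_zero]
        rw [h3, List.length_cons]
        push_cast
        have := abs_add_le h1.c h2.c
        nlinarith
      · rw [val_cons, ← mul_assoc, he1, mul_assoc, he2, mul_assoc, disp_cons, add_assoc]
  -- the square
  obtain ⟨n₁, hn₁⟩ := exists_ball hX gx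
  obtain ⟨n₂, hn₂⟩ := exists_ball hX gy
  obtain ⟨n₃, hn₃⟩ := exists_ball hX gx⁻¹
  obtain ⟨n₄, hn₄⟩ := exists_ball hX gy⁻¹
  let m := E * (n₁ + n₂ + n₃ + n₄) + 1
  have hball : (⟨0, 0, m * m⟩ : Heis) ∈ Ball X (m * n₁ + m * n₂ + m * n₃ + m * n₄) := by
    rw [← square m, ← inv_pow, ← inv_pow]
    exact ball_mul (ball_mul (ball_mul (ball_pow hn₁ m) (ball_pow hn₂ m)) (ball_pow hn₃ m))
      (ball_pow hn₄ m)
  obtain ⟨u, hu, huv⟩ := hball
  obtain ⟨h, hc, hb, he⟩ := words u 0
  have hd : disp dl u = 0 := by rw [disp_eq, huv]; rfl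
  rw [hd, add_zero] at he
  have hh : h = ⟨0, 0, m * m⟩ := by
    have h1 : val (w 0) * h = val (w 0) * val u := by
      rw [he]
      exact (Subgroup.mem_center_iff.1 hc (val (w 0)))
    rw [← huv]
    exact mul_left_cancel h1
  rw [hh] at hb
  have hb' : |((m : ℤ) * m)| ≤ E * u.length := hb
  rw [abs_of_nonneg (by positivity)] at hb'
  have h5 : (u.length : ℤ) ≤ m * (n₁ + n₂ + n₃ + n₄) := by
    have h6 : u.length ≤ m * (n₁ + n₂ + n₃ + n₄) := by
      calc u.length ≤ m * n₁ + m * n₂ + m * n₃ + m * n₄ := hu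
        _ = m * (n₁ + n₂ + n₃ + n₄) := by ring
    exact_mod_cast h6
  have h7 : (m : ℤ) * m ≤ m * (E * (n₁ + n₂ + n₃ + n₄)) := by
    calc (m : ℤ) * m ≤ E * u.length := hb'
      _ ≤ E * (m * (n₁ + n₂ + n₃ + n₄)) := by
        apply mul_le_mul_of_nonneg_left h5 (by positivity)
      _ = m * (E * (n₁ + n₂ + n₃ + n₄)) := by ring
  have hm : (m : ℤ) = E * (n₁ + n₂ + n₃ + n₄) + 1 := by
    simp only [m]
    push_cast
    ring
  have hpos : (0 : ℤ) < m := by rw [hm]; positivity
  have h8 := le_of_mul_le_mul_left h7 hpos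
  omega

/-- **Main theorem.** There are a finitely generated group `G` and a subgroup `H` (the Heisenberg
group and its centre) such that `(G, H)` is coset automatic (with respect to some finite generating
set `X`) but, for every finite generating set `X`, not strongly coset automatic. -/
theorem result : ∃ (G : Type) (_ : Group G) (H : Subgroup G),
    (∃ X : Set G, X.Finite ∧ Subgroup.closure X = ⊤ ∧ CosetAutomatic X H) ∧
    ∀ X : Set G, X.Finite → Subgroup.closure X = ⊤ → ¬ StronglyCosetAutomatic X H :=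
  ⟨Heis, inferInstance, Subgroup.center Heis,
    ⟨XX, (Set.finite_singleton gy).insert gx, closure_XX, coset_automatic⟩, not_strongly⟩

end Pool.Agent.Results.MP_6b1724_al.CosetAutomaticNotStrongly
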